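import Pool.Agent.FG.St
import Pool.Agent.FG.StProof
import Pool.Agent.FGS.Main

/-!
MP_0c7c15_an, Q1: there is a II_1 factor `N` with separable predual such that the fundamental
group of each of its tracial ultrapowers along non-principal ultrafilters is not full; it is
contained in the group of the integral powers of 3.
-/

set_option autoImplicit false

open Pool.Agent.FG.St

theorem Pool.Agent.Results.MP_0c7c15_an.NonFullUltrapower.result :
    ∃ (H : Type) (_ : NormedAddCommGroup H) (_ : InnerProductSpace ℂ H)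
      (_ : CompleteSpace H) (_ : TopologicalSpace.SeparableSpace H) (F : IIOneFactor H),
      ∀ U : Ultrafilter ℕ, (U : Filter ℕ) ≤ Filter.cofinite →
        ∃ (M : Type) (_ : Ring M) (_ : StarRing M) (_ : Algebra ℂ M) (tr : M →ₗ[ℂ] ℂ)
          (q : (ℕ → (H →L[ℂ] H)) → M), IsUltrapower F U tr q ∧
            fundamentalGroup tr ⊆ {t | ∃ m : ℤ, t = 3 ^ m} ∧
              fundamentalGroup tr ≠ Set.Ioi 0 := by
  obtain ⟨H, i1, i2, i3, i4, F, h⟩ := Pool.Agent.FG.S.final_separable
  refine ⟨H, i1, i2, i3, i4, ofOld F, fun U hU => ⟨_, _, _, _, F.ultraTrace U, qMap F U,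
    isUltrapower_qMap F U, h U hU, fun he => ?_⟩⟩
  have h2 : (2 : ℝ) ∈ fundamentalGroup (F.ultraTrace U) := by
    rw [he]
    exact (two_pos : (0 : ℝ) < 2)
  obtain ⟨m, hm⟩ := h U hU h2
  rcases le_or_gt m 0 with h3 | h3
  · have h4 : (3 : ℝ) ^ m ≤ 1 := zpow_le_one_of_nonpos₀ (by norm_num) h3
    linarith
  · have h4 : (3 : ℝ) ^ (1 : ℤ) ≤ 3 ^ m := zpow_le_zpow_right₀ (by norm_num) (by omega)
    rw [zpow_one] at h4
    linarith
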